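import Pool.Agent.Results.MP_faea85_an.Hierarchy

/-!
# Weak sequential supercyclicity does not imply weak `1`-sequential supercyclicity

Real or complex scalars. Let `T` be a bounded operator on a Banach space `X` which is not weakly
`1`-sequentially hypercyclic and for which the weak limits of the sequences in some orbit are norm
dense (such operators are in the starting library, for instance on `ℓ_p`, `1 < p < ∞`, and on
`c_0`). Then `T ⊕ 1` on `X ⊕ 𝕜` is weakly sequentially supercyclic (two steps of adding weak limits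
of sequences are enough) and it is not weakly `1`-sequentially supercyclic.
-/

set_option autoImplicit false

open Filter Topology
open scoped ENNReal ZeroAtInfty

namespace Pool.Agent.Results.MP_e616d8_an.TwoSteps

section defs

variable (𝕜 : Type) [RCLike 𝕜] {X : Type} [NormedAddCommGroup X] [NormedSpace 𝕜 X]

/-- The projective orbit of `x` under `T`. -/
def projectiveOrbit (T : X →L[𝕜] X) (x : X) : Set X :=
  {y | ∃ (n : ℕ) (c : 𝕜), y = c • (T ^ n) x}

/-- The sequence `u` converges weakly to `y`. -/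
def WeaklyTendsto (u : ℕ → X) (y : X) : Prop :=
  ∀ φ : X →L[𝕜] 𝕜, Tendsto (fun k => φ (u k)) atTop (𝓝 (φ y))

/-- The set `[A]_1` of the weak limits of the sequences of elements of `A`. -/
def weakLimits (A : Set X) : Set X :=
  {y | ∃ u : ℕ → X, (∀ k, u k ∈ A) ∧ WeaklyTendsto 𝕜 u y}

/-- `A` is weakly sequentially closed: `[A]_1 = A`. -/
def IsWeaklySeqClosed (A : Set X) : Prop :=
  weakLimits 𝕜 A = A

/-- `A` is weakly sequentially dense: the smallest weakly sequentially closed set containing `A` is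
the whole space. -/
def IsWeaklySeqDense (A : Set X) : Prop :=
  ∀ M : Set X, IsWeaklySeqClosed 𝕜 M → A ⊆ M → M = Set.univ

/-- `A` is weakly `1`-sequentially dense: `[A]_1` is the whole space. -/
def IsWeaklyOneSeqDense (A : Set X) : Prop :=
  weakLimits 𝕜 A = Set.univ

/-- `T` is weakly sequentially supercyclic. -/
def IsWeaklySequentiallySupercyclic (T : X →L[𝕜] X) : Prop :=
  ∃ x : X, IsWeaklySeqDense 𝕜 (projectiveOrbit 𝕜 T x)

/-- `T` is weakly `1`-sequentially supercyclic. -/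
def IsWeaklyOneSequentiallySupercyclic (T : X →L[𝕜] X) : Prop :=
  ∃ x : X, IsWeaklyOneSeqDense 𝕜 (projectiveOrbit 𝕜 T x)

/-- On `X` there is a bounded operator which is weakly sequentially supercyclic but not weakly
`1`-sequentially supercyclic. -/
def HasExample (X : Type) [NormedAddCommGroup X] [NormedSpace 𝕜 X] : Prop :=
  ∃ T : X →L[𝕜] X, IsWeaklySequentiallySupercyclic 𝕜 T ∧
    ¬ IsWeaklyOneSequentiallySupercyclic 𝕜 T

end defs

open Pool.Agent.Results.MP_faea85_an.Hierarchy (orbitLimits IsWeaklyOneSequentiallyHypercyclic)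

section proof

variable {𝕜 : Type} [RCLike 𝕜] {X : Type} [NormedAddCommGroup X] [NormedSpace 𝕜 X]

/-- The operator `T ⊕ 1`. -/
noncomputable def ext (T : X →L[𝕜] X) : (X × 𝕜) →L[𝕜] (X × 𝕜) :=
  T.prodMap (ContinuousLinearMap.id 𝕜 𝕜)

lemma ext_pow (T : X →L[𝕜] X) (n : ℕ) (x : X) (c : 𝕜) :
    ((ext T) ^ n) (x, c) = ((T ^ n) x, c) := by
  induction n with
  | zero => simp
  | succ n ih =>
    rw [pow_succ', pow_succ', mul_apply_eq_comp, ih, mul_apply_eq_comp]
    rfl

lemma dense_two {T : X →L[𝕜] X} {x : X} (h : Dense (orbitLimits 𝕜 T x)) :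
    IsWeaklySeqDense 𝕜 (projectiveOrbit 𝕜 (ext T) (x, 1)) := by
  intro M hM hA
  have h1 : ∀ (u : ℕ → X × 𝕜) (y : X × 𝕜), (∀ k, u k ∈ M) → WeaklyTendsto 𝕜 u y → y ∈ M := by
    intro u y hu hy
    have : y ∈ weakLimits 𝕜 M := ⟨u, hu, hy⟩
    rwa [show weakLimits 𝕜 M = M from hM] at this
  have h2 : ∀ v ∈ orbitLimits 𝕜 T x, ∀ c : 𝕜, (c • v, c) ∈ M := by
    rintro v ⟨n, hn⟩ c
    refine h1 (fun k => (c • (T ^ n k) x, c)) _ (fun k => hA ⟨n k, c, ?_⟩) fun φ => ?_
    · rw [ext_pow, Prod.smul_mk, smul_eq_mul, mul_one]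
    · have h3 : ∀ w : X, φ (c • w, c) = c * (φ.comp (ContinuousLinearMap.inl 𝕜 X 𝕜)) w +
          φ (0, c) := by
        intro w
        rw [ContinuousLinearMap.comp_apply, ContinuousLinearMap.inl_apply, ← smul_eq_mul,
          ← map_smul, ← map_add]
        simp
      simp only [h3]
      exact ((hn _).const_mul c).add_const _
  have h4 : ∀ (v : X) (c : 𝕜), c ≠ 0 → (v, c) ∈ M := by
    intro v c hc
    obtain ⟨u, hu, huv⟩ := mem_closure_iff_seq_limit.1 (h (c⁻¹ • v))
    refine h1 (fun k => (c • u k, c)) _ (fun k => h2 (u k) (hu k) c) fun φ => ?_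
    have h5 : Tendsto (fun k => (c • u k, c)) atTop (𝓝 (v, c)) := by
      have h6 : Tendsto (fun k => c • u k) atTop (𝓝 v) := by
        have := huv.const_smul c
        rwa [smul_inv_smul₀ hc] at this
      exact h6.prodMk_nhds tendsto_const_nhds
    exact (φ.continuous.tendsto _).comp h5
  refine Set.eq_univ_of_forall fun ⟨v, c⟩ => ?_
  by_cases hc : c = 0
  · subst hc
    refine h1 (fun k : ℕ => (v, (1 / ((k : 𝕜) + 1) : 𝕜))) _ (fun k => h4 v _ ?_) fun φ => ?_
    · exact one_div_ne_zero (Nat.cast_add_one_ne_zero k)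
    · have h7 : Tendsto (fun k : ℕ => (v, (1 / ((k : 𝕜) + 1) : 𝕜))) atTop (𝓝 (v, (0 : 𝕜))) :=
        tendsto_const_nhds.prodMk_nhds (tendsto_one_div_add_atTop_nhds_zero_nat (𝕜 := 𝕜))
      exact (φ.continuous.tendsto _).comp h7
  · exact h4 v c hc

lemma not_one {T : X →L[𝕜] X} (h : ¬ IsWeaklyOneSequentiallyHypercyclic 𝕜 T) :
    ¬ IsWeaklyOneSequentiallySupercyclic 𝕜 (ext T) := by
  rintro ⟨⟨x, c⟩, hx⟩
  apply h
  have key : ∀ y : X, c ≠ 0 ∧ c • y ∈ orbitLimits 𝕜 T x := by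
    intro y
    have hy : (y, (1 : 𝕜)) ∈ weakLimits 𝕜 (projectiveOrbit 𝕜 (ext T) (x, c)) := by
      rw [show weakLimits 𝕜 (projectiveOrbit 𝕜 (ext T) (x, c)) = Set.univ from hx]
      trivial
    obtain ⟨u, hu, huy⟩ := hy
    choose n a hn using hu
    have e1 : ∀ k, u k = (a k • (T ^ n k) x, a k * c) := by
      intro k
      rw [hn k, ext_pow, Prod.smul_mk, smul_eq_mul]
    have e2 : Tendsto (fun k => a k * c) atTop (𝓝 1) := by
      have := huy (ContinuousLinearMap.snd 𝕜 X 𝕜)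
      simpa [e1] using this
    have hc : c ≠ 0 := by
      rintro rfl
      simp only [mul_zero] at e2
      exact zero_ne_one (tendsto_nhds_unique tendsto_const_nhds e2)
    refine ⟨hc, n, fun ψ => ?_⟩
    have e3 : Tendsto (fun k => a k * ψ ((T ^ n k) x)) atTop (𝓝 (ψ y)) := by
      have := huy (ψ.comp (ContinuousLinearMap.fst 𝕜 X 𝕜))
      simpa [e1] using this
    have e4 : Tendsto (fun k => (a k * c)⁻¹) atTop (𝓝 1) := by
      have := e2.inv₀ one_ne_zero
      rwa [inv_one] at this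
    have e5 : Tendsto (fun k => c * ((a k * c)⁻¹ * (a k * ψ ((T ^ n k) x)))) atTop
        (𝓝 (c * (1 * ψ y))) := (e4.mul e3).const_mul c
    have e6 : ∀ᶠ k in atTop, a k * c ≠ 0 := e2.eventually_ne one_ne_zero
    rw [map_smul, smul_eq_mul, ← one_mul (ψ y)]
    refine e5.congr' ?_
    filter_upwards [e6] with k hk
    have hak : a k ≠ 0 := left_ne_zero_of_mul hk
    field_simp
  refine ⟨x, Set.eq_univ_of_forall fun y => ?_⟩
  obtain ⟨hc, h1⟩ := key (c⁻¹ • y)
  rwa [smul_inv_smul₀ hc] at h1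

lemma sep (h : ∃ T : X →L[𝕜] X, (∃ x, Dense (orbitLimits 𝕜 T x)) ∧
    ¬ IsWeaklyOneSequentiallyHypercyclic 𝕜 T) :
    ∃ S : (X × 𝕜) →L[𝕜] (X × 𝕜), IsWeaklySequentiallySupercyclic 𝕜 S ∧
      ¬ IsWeaklyOneSequentiallySupercyclic 𝕜 S := by
  obtain ⟨T, ⟨x, hx⟩, hT⟩ := h
  exact ⟨ext T, ⟨(x, 1), dense_two hx⟩, not_one hT⟩

end proof

lemma separable_lp {𝕜 : Type} [RCLike 𝕜] {p : ℝ≥0∞} [Fact (1 ≤ p)] (hp : p ≠ ∞) :
    TopologicalSpace.SeparableSpace (lp (fun _ : ℕ => 𝕜) p) := by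
  have h1 : closure (Submodule.span 𝕜 (Set.range fun i : ℕ =>
      (lp.single (E := fun _ : ℕ => 𝕜) p i (1 : 𝕜))) : Set (lp (fun _ : ℕ => 𝕜) p)) =
      Set.univ := by
    rw [Set.eq_univ_iff_forall]
    intro x
    have h2 := lp.hasSum_single (E := fun _ : ℕ => 𝕜) hp x
    refine mem_closure_of_tendsto h2 (Filter.Eventually.of_forall (fun s => ?_))
    refine Submodule.sum_mem _ (fun k _ => ?_)
    have h3 : lp.single (E := fun _ : ℕ => 𝕜) p k (x k) =
        x k • lp.single (E := fun _ : ℕ => 𝕜) p k (1 : 𝕜) := by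
      rw [← lp.single_smul, smul_eq_mul, mul_one]
    rw [h3]
    exact Submodule.smul_mem _ _ (Submodule.subset_span ⟨k, rfl⟩)
  rw [← TopologicalSpace.isSeparable_univ_iff, ← h1]
  apply TopologicalSpace.IsSeparable.closure
  apply TopologicalSpace.IsSeparable.span
  exact (Set.countable_range _).isSeparable

open Pool.Agent.Results.MP_faea85_an.Hierarchy (ComplementedIn EmbedsIn)

/-- Real or complex scalars. Let the separable Banach space `X` have a complemented subspace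
isomorphic to `ℓ_p` for some `1 < p < ∞` or contain a copy of `c_0`. Then on `X ⊕ 𝕜` there is a
bounded operator which is weakly sequentially supercyclic but not weakly `1`-sequentially
supercyclic. For instance this is so for `X = ℓ_p` with `1 < p < ∞`. -/
theorem result (𝕜 : Type) [RCLike 𝕜] :
    (∀ (X : Type) [NormedAddCommGroup X] [NormedSpace 𝕜 X] [CompleteSpace X]
      [TopologicalSpace.SeparableSpace X],
      ((∃ (p : ℝ≥0∞) (_ : Fact (1 ≤ p)), 1 < p ∧ p ≠ ∞ ∧
        ComplementedIn 𝕜 (lp (fun _ : ℕ => 𝕜) p) X) ∨ EmbedsIn 𝕜 C₀(ℕ, 𝕜) X) →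
      HasExample 𝕜 (X × 𝕜)) ∧
    ∀ (p : ℝ≥0∞) [Fact (1 ≤ p)], 1 < p → p ≠ ∞ →
      HasExample 𝕜 (lp (fun _ : ℕ => 𝕜) p × 𝕜) := by
  have h1 : ∀ (X : Type) [NormedAddCommGroup X] [NormedSpace 𝕜 X] [CompleteSpace X]
      [TopologicalSpace.SeparableSpace X],
      ((∃ (p : ℝ≥0∞) (_ : Fact (1 ≤ p)), 1 < p ∧ p ≠ ∞ ∧
        ComplementedIn 𝕜 (lp (fun _ : ℕ => 𝕜) p) X) ∨ EmbedsIn 𝕜 C₀(ℕ, 𝕜) X) →
      HasExample 𝕜 (X × 𝕜) := by
    intro X _ _ _ _ h
    obtain ⟨-, r2, r3, -⟩ := Pool.Agent.Results.MP_faea85_an.Hierarchy.result 𝕜 X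
    have hs : Pool.Agent.Results.MP_faea85_an.Hierarchy.Separated 𝕜 X := by
      rcases h with h | h
      · exact r2 h
      · exact r3 h
    obtain ⟨-, T, -, hT, hn, -⟩ := hs
    exact sep ⟨T, hT, hn⟩
  refine ⟨h1, fun p _ h hp => ?_⟩
  have := separable_lp (𝕜 := 𝕜) hp
  exact h1 _ (Or.inl ⟨p, inferInstance, h, hp, ContinuousLinearMap.id _ _,
    ContinuousLinearMap.id _ _, fun y => rfl⟩)

end Pool.Agent.Results.MP_e616d8_an.TwoSteps
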